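import Pool.Agent.X35.RQ.Top

/-!
# MP_eac634_nt: the order of the reversed primes grows at most like the logarithm of the base

There is an absolute constant `C` such that for every base `b ≥ 2` there is an integer `K ≥ 2` with
`K ≤ C log b` such that every sufficiently large integer is a sum of at most `K` reversed primes in
base `b`.
-/

set_option autoImplicit false

namespace Pool.Agent.Results.MP_eac634_nt.LogarithmicBound

/-- the digital reverse of `n` in base `b`: the number whose base `b` digits are those of `n` in the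
opposite order -/
def rev (b n : ℕ) : ℕ := Nat.ofDigits b (Nat.digits b n).reverse

/-- `K_b ≤ C log b` for all bases `b ≥ 2`, with an absolute constant `C` -/
theorem result : ∃ C : ℝ, 0 < C ∧ ∀ b : ℕ, 2 ≤ b →
    ∃ K : ℕ, 2 ≤ K ∧ (K : ℝ) ≤ C * Real.log b ∧
      ∃ N₀ : ℕ, ∀ N : ℕ, N₀ ≤ N → ∃ s : Multiset ℕ,
        Multiset.card s ≤ K ∧ (∀ p ∈ s, Nat.Prime p) ∧ (s.map (rev b)).sum = N :=
  Pool.Agent.X35.RQ.main

end Pool.Agent.Results.MP_eac634_nt.LogarithmicBound
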